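import Mathlib
import Pool.Agent.Lib_helper10.LogRank.Defs
import Pool.Agent.Lib_helper58.XA.Main

/-!
Matrices with an abelian group of symmetries: deterministic communication complexity `r ^ o(1)`.

A finite abelian group `A` acts on the finite sets `X` and `Y`, and `F (a • x) (a • y) = F x y`. The
function is `F (x, y) + u (x) + v (y)` mod 2 with arbitrary Boolean functions `u` and `v` (`^^` is
the exclusive or). For every `ε > 0` there is a constant `C`, depending on `ε` only, such that it
has a deterministic protocol of cost at most `⌈log₂ k⌉ + C * r ^ ε`, where `k` is the number of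
orbits of `A` on `X` and `r` is the real rank of the communication matrix.

With `X = Y = A` and the action `a • x = a x` on `X` and `a • y = a⁻¹ y` on `Y` (one orbit) these
are all functions of the product `x y`: all functions `f (x + y)` on all finite abelian groups, in
particular all XOR functions.
-/

set_option autoImplicit false

namespace Pool.Agent.Results.MP_e5d384_lc.AbelianSymmetry

open Pool.Agent.Lib_helper10.LogRank

theorem result (ε : ℝ) (hε : 0 < ε) : ∃ C : ℝ, ∀ (A : Type) [CommGroup A] [Finite A]
    (X Y : Type) [Fintype X] [Fintype Y] [MulAction A X] [MulAction A Y] (F : X → Y → Bool)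
    (u : X → Bool) (v : Y → Bool), (∀ (a : A) (x : X) (y : Y), F (a • x) (a • y) = F x y) →
    ∃ π : Protocol X Y, (∀ x y, π.eval x y = (F x y ^^ u x ^^ v y)) ∧
      (π.cost : ℝ) ≤ Nat.clog 2 (Nat.card (MulAction.orbitRel.Quotient A X)) +
        C * (realRank fun (x : X) (y : Y) => (F x y ^^ u x ^^ v y) : ℝ) ^ ε :=
  Pool.Agent.XA.abelian_final hε

end Pool.Agent.Results.MP_e5d384_lc.AbelianSymmetry
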