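import Mathlib
import Pool.Agent.Lib_helper10.LogRank.Defs
import Pool.Agent.Lib_helper94.XO.Top
import Pool.Agent.Lib_helper67.XO4.Final

/-!
All XOR functions have deterministic communication complexity `r ^ o(1)`.

`F (x, y) = f (x + y)` for `x`, `y` in `F_2 ^ n`, where `f` is an arbitrary Boolean function, or
more generally `F (x, y) = f (x + y) + u (x) + v (y)` mod 2 with arbitrary Boolean functions `u`
and `v` (`^^` is the exclusive or). For every `ε > 0` there is a constant `C`, depending on `ε`
only, such that `F` has a deterministic protocol of cost at most `C * r ^ ε`, where `r` is the real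
rank of the communication matrix of `F`.
-/

set_option autoImplicit false

namespace Pool.Agent.Results.MP_e5d384_lc.XorSubpolynomial

open Pool.Agent.Lib_helper10.LogRank

theorem result (ε : ℝ) (hε : 0 < ε) : ∃ C : ℝ, ∀ (n : ℕ) (f u v : (Fin n → ZMod 2) → Bool),
    ∃ π : Protocol (Fin n → ZMod 2) (Fin n → ZMod 2),
      (∀ x y, π.eval x y = (f (x + y) ^^ u x ^^ v y)) ∧
      (π.cost : ℝ) ≤
        C * (realRank fun x y : Fin n → ZMod 2 => (f (x + y) ^^ u x ^^ v y) : ℝ) ^ ε :=
  Pool.Agent.Lib_helper67.XO4.final_prot Pool.Agent.XO.no_world ε hε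

end Pool.Agent.Results.MP_e5d384_lc.XorSubpolynomial
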